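import Pool.Agent.helper5.SYM.SpecA

set_option autoImplicit false

namespace Pool.Agent.SYM
open Finset CT Polynomial

theorem SC0_lv (hWT : WT_stmt) {D A : Type} [DecidableEq D] [AddCommGroup A] [Finite A] (e : D → D)
    (α : D → A) (x y : D) (β : A) : lv e α x y β = 0 ↔ CT.lp e x y = 0 := by
  unfold lv CT.lp
  by_cases h : e x = y
  · rw [if_pos h, if_pos h]
    have h1 := (hWT A (α x - β)).2
    constructor
    · intro h2
      omega
    · intro h2
      omega
  · rw [if_neg h, if_neg h]

theorem SC0_lsv (hWT : WT_stmt) {W A : Type} [DecidableEq W] [AddCommGroup A] [Finite A]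
    (e : W × Fin 4 → W × Fin 4) (α : W × Fin 4 → A) (u : W) (t : Fin 3) :
    lsv e α u t = 0 ↔ ls e u t = 0 := by
  unfold lsv ls
  rw [Nat.add_eq_zero_iff, Nat.add_eq_zero_iff, SC0_lv hWT, SC0_lv hWT]

theorem SC0 (hWT : WT_stmt) (hSMA : SMA_stmt) : SC0_stmt := by
  intro W A _ _ _ Ω R L
  induction L with
  | nil =>
    intro E e α _ _ hact hvol h
    have h1 : Act E e := by
      have : dts (([] : List W).toFinset) ∪ E = E := by
        simp [dts]
      rwa [this] at hact
    exact h e α h1 hvol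
  | cons u L ih =>
    intro E e α hnd hE hact hvol h
    have hu : u ∉ L := (List.nodup_cons.1 hnd).1
    have hL : L.Nodup := (List.nodup_cons.1 hnd).2
    change (∑ t : Fin 3, X ^ lsv e α u t * SA Ω L (sm e u t) (smv e α u t)).coeff 0 =
      ∑ t : Fin 3, if ls e u t = 0 then NL R L (sm e u t) else 0
    rw [finsetSum_coeff]
    refine Finset.sum_congr rfl fun t _ => ?_
    have hE2 : ∀ x ∈ E, x.1 ≠ u := fun x hx hxu => hE x hx (by rw [hxu]; exact List.mem_cons_self)
    have hE3 : ∀ x ∈ E, x.1 ∉ L := fun x hx hxL => hE x hx (List.mem_cons_of_mem _ hxL)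
    have hact2 : Act (dts (insert u L.toFinset) ∪ E) e := by
      rwa [List.toFinset_cons] at hact
    obtain ⟨h1, h2⟩ := hSMA W A L.toFinset E e α u t (by rw [List.mem_toFinset]; exact hu) hE2 hact2 hvol
    rw [Polynomial.mul_coeff_zero, Polynomial.coeff_X_pow]
    by_cases h0 : ls e u t = 0
    · rw [if_pos ((SC0_lsv hWT e α u t).2 h0).symm, if_pos h0, one_mul]
      exact ih E (sm e u t) (smv e α u t) hL hE3 h1 h2 h
    · rw [if_neg (fun h3 => h0 ((SC0_lsv hWT e α u t).1 h3.symm)), if_neg h0, zero_mul]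

end Pool.Agent.SYM
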